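import Pool.Agent.TH977.PW.Prog

set_option autoImplicit false

/-!
# Regular neighbourhoods of prime triples of both shapes

Let `H` be `{0, 2, 6}` or `{0, 4, 6}`. Let `R H r` be the set of the `n` for which all prime
factors of all `n + h` (`h ∈ H`) are larger than `n ^ (1 / r)`; it contains all `n` for which all
`n + h` are prime. In every short interval `(X, X + Y]`, `Y ≥ X ^ θ`, there are at least
`κ Y / log ^ 3 X` integers `n` in `R H r` such that all `n + h` have at most `r` prime factors. Let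
`A` be an ARBITRARY subset of `R H r` (for example the set of all prime triples of the shape
`H`). In every short interval `(X, X + Y]`, `X ^ θ ≤ Y ≤ X / 2`, all but `ε Y / log ^ 3 X` of the
elements of `A` are regular points of `A`: the elements of `A` in ALL intervals of length between
`log ^ 3 X / c` and `Y` around them have the right order, and constant density up to `δ` at all but
`B (ε, δ)` dyadic scales.
-/

namespace Pool.Agent.Results.MP_c0d11e_nt.RegularTriples

open Finset Filter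
open Pool.Agent.TH977.PW (N Irregular)

/-- All prime factors of all `n + h`, `h ∈ H`, are larger than `n ^ (1 / r)`. -/
def R (H : Finset ℕ) (r : ℕ) : Set ℕ :=
  {n | ∀ h ∈ H, ∀ p : ℕ, p.Prime → p ∣ n + h → (n : ℝ) ^ (1 / (r : ℝ)) < (p : ℝ)}

/-- no local obstruction -/
lemma adm (H : Finset ℕ) (hH : H = {0, 2, 6} ∨ H = {0, 4, 6}) (p : ℕ)
    (hp : p.Prime) : ∃ m : ℕ, ∀ h ∈ H, ¬ p ∣ m + h := by
  rcases hH with rfl | rfl
  · rcases lt_or_ge p 30 with h30 | h30
    · refine ⟨41, fun h hh hd => ?_⟩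
      simp only [mem_insert, mem_singleton] at hh
      have := (Nat.prime_dvd_prime_iff_eq hp
        (by rcases hh with rfl | rfl | rfl <;> norm_num)).1 hd
      omega
    · refine ⟨5, fun h hh hd => ?_⟩
      simp only [mem_insert, mem_singleton] at hh
      have := Nat.le_of_dvd (by omega) hd
      omega
  · rcases lt_or_ge p 30 with h30 | h30
    · refine ⟨37, fun h hh hd => ?_⟩
      simp only [mem_insert, mem_singleton] at hh
      have := (Nat.prime_dvd_prime_iff_eq hp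
        (by rcases hh with rfl | rfl | rfl <;> norm_num)).1 hd
      omega
    · refine ⟨7, fun h hh hd => ?_⟩
      simp only [mem_insert, mem_singleton] at hh
      have := Nat.le_of_dvd (by omega) hd
      omega

/-- **Regular neighbourhoods of prime triples of both shapes.** -/
theorem result (H : Finset ℕ) (hH : H = {0, 2, 6} ∨ H = {0, 4, 6})
    (θ : ℝ) (hθ : 0 < θ) (hθ1 : θ ≤ 1) :
    ∃ r₀ : ℕ, 2 ≤ r₀ ∧ ∀ r : ℕ, r₀ ≤ r →
      (∀ n : ℕ, (∀ h ∈ H, (n + h).Prime) → n ∈ R H r) ∧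
      (∃ κ : ℝ, 0 < κ ∧ ∀ᶠ X : ℕ in atTop, ∀ Y : ℕ, (X : ℝ) ^ θ ≤ Y → Y ≤ X →
        κ * Y / Real.log X ^ 3 ≤
          N {n | n ∈ R H r ∧ ∀ h ∈ H, (n + h).primeFactorsList.length ≤ r} X (X + Y)) ∧
      ∀ ε : ℝ, 0 < ε → ∃ c : ℝ, 0 < c ∧ ∀ δ : ℝ, 0 < δ → ∃ B : ℕ,
        ∀ᶠ X : ℕ in atTop, ∀ Y : ℕ, (X : ℝ) ^ θ ≤ Y → 2 * Y ≤ X → ∀ A : Set ℕ, A ⊆ R H r →
          (N (Irregular A 3 c δ B X Y) X (X + Y) : ℝ) ≤ ε * Y / Real.log X ^ 3 := by
  have h0 : 0 ∈ H := by rcases hH with rfl | rfl <;> simp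
  have hc : H.card = 3 := by rcases hH with rfl | rfl <;> rfl
  obtain ⟨r0, hr0, h⟩ := Pool.Agent.TH977.PW.final_prog H ⟨0, h0⟩ 1 0 one_pos
    (fun h _ => Nat.coprime_one_right _)
    (fun p hp => adm H hH p hp)
    (fun r => R H r)
    (fun r => {n | n ∈ R H r ∧ ∀ h ∈ H, (n + h).primeFactorsList.length ≤ r}) 3 hc
    (fun r m _ hm => hm)
    (fun r _ => Eventually.of_forall (fun m _ h1 h2 => ⟨h1, h2⟩)) θ hθ hθ1
  refine ⟨r0, hr0, fun r hr => ⟨?_, (h r hr).1, (h r hr).2⟩⟩
  intro n hn h hh q hq hdv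
  have hn2 : 2 ≤ n := by simpa using (hn 0 h0).two_le
  rw [(Nat.prime_dvd_prime_iff_eq hq (hn h hh)).1 hdv]
  exact Pool.Agent.TH977.PW.rpow_lt_of_le r n (n + h) (hr0.trans hr) hn2 (by omega)

end Pool.Agent.Results.MP_c0d11e_nt.RegularTriples
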